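import Pool.Agent.H30.AV.Targets2
import Pool.Agent.H30.VGH.Targets2

/-!
# Homogeneous relations between `r + 2` homogeneous coordinates
-/

set_option autoImplicit false

namespace Pool.Agent.H51.AV

open MvPolynomial SC Pool.Agent.H27.LV Pool.Agent.H30.AV

theorem rank_contra (k Ω : Type) [Field k] [Field Ω] [Algebra k Ω] (n r : ℕ) (y : Fin n → Ω)
    (lam : Ω) (x : Fin (r + 2) → Ω) (hx : AlgebraicIndependent k x)
    (hm : ∀ i, x i ∈ Algebra.adjoin k (insert lam (Set.range y))) :
    ∃ s : Fin (r + 1) → Fin n, AlgebraicIndependent k fun i => y (s i) := by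
  set M := AlgebraicIndependent.matroid k Ω with hM
  obtain ⟨B, hB⟩ := M.exists_isBasis (Set.range y)
  by_cases hr : B.encard ≤ r
  · exfalso
    have h1 : M.Indep (Set.range x) := by
      rw [hM, AlgebraicIndependent.matroid_indep_iff]
      exact (algebraicIndependent_subtype_range hx.injective).2 hx
    have h2 : Set.range x ⊆ M.closure (insert lam (Set.range y)) := by
      rintro _ ⟨i, rfl⟩
      rw [hM, AlgebraicIndependent.matroid_closure_eq]
      exact isAlgebraic_algebraMap
        (⟨x i, hm i⟩ : Algebra.adjoin k (insert lam (Set.range y)))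
    have h3 := M.eRk_mono h2
    rw [Matroid.eRk_closure_eq, h1.eRk_eq_encard] at h3
    have h4 := M.eRk_insert_le_add_one lam (Set.range y)
    rw [← hB.encard_eq_eRk] at h4
    have h5 : (Set.range x).encard = ((r + 2 : ℕ) : ℕ∞) := by
      rw [← Set.image_univ, hx.injective.encard_image, Set.encard_univ, ENat.card_eq_coe_fintype_card,
        Fintype.card_fin]
    rw [h5] at h3
    have h6 := h3.trans (h4.trans (add_le_add_left hr 1))
    have h7 : r + 2 ≤ r + 1 := by exact_mod_cast h6
    omega
  · have h1 : ((r + 1 : ℕ) : ℕ∞) ≤ B.encard := by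
      push Not at hr
      have := Order.add_one_le_of_lt hr
      exact_mod_cast this
    obtain ⟨B', hB', hc⟩ := Set.exists_subset_encard_eq h1
    have hfin : B'.Finite := Set.finite_of_encard_eq_coe hc
    have hcard : Nat.card B' = r + 1 := by
      rw [Nat.card_coe_set_eq, Set.ncard, hc]
      rfl
    have : Finite B' := hfin
    let e : Fin (r + 1) ≃ B' := (Finite.equivFinOfCardEq hcard).symm
    have h2 : ∀ i, ∃ j, y j = (e i : Ω) := fun i => hB.subset (hB' (e i).2)
    choose s hs using h2
    refine ⟨s, ?_⟩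
    have h3 : M.Indep B' := hB.indep.subset hB'
    rw [hM, AlgebraicIndependent.matroid_indep_iff] at h3
    have h4 := AlgebraicIndependent.comp h3 e e.injective
    have h5 : (fun i => y (s i)) = (fun i : B' => id (i : Ω)) ∘ e := by
      funext i
      simp [hs]
    rw [h5]
    exact h4

theorem aeval_hom {k R : Type} [Field k] [CommRing R] [Algebra k R] {σ : Type}
    (φ : MvPolynomial σ k) (N : ℕ) (h : φ.IsHomogeneous N) (t : R) (z : σ → R) :
    aeval (fun i => t * z i) φ = t ^ N * aeval z φ := by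
  rw [φ.as_sum, map_sum, map_sum, Finset.mul_sum]
  refine Finset.sum_congr rfl fun m hm => ?_
  rw [aeval_monomial, aeval_monomial]
  have h1 : m.degree = N := by
    have h0 : Finsupp.weight 1 m = N := h (mem_support_iff.1 hm)
    rw [← h0, Finsupp.degree_eq_weight_one]
    rfl
  rw [Finsupp.prod, Finsupp.prod]
  simp only [mul_pow]
  rw [Finset.prod_mul_distrib, Finset.prod_pow_eq_pow_sum]
  have h2 : ∑ i ∈ m.support, m i = N := h1
  rw [h2]
  ring

theorem pf_CON (hELI : Pool.Agent.H30.VGH.T_ELI) : T_CON := by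
  intro k _ n r Q hQ s
  let X0 : Fin (r + 2) → MvPolynomial (Fin (r + 2) ⊕ (Fin n ⊕ Unit)) k := fun i => X (Sum.inl i)
  let Y0 : Fin n → MvPolynomial (Fin (r + 2) ⊕ (Fin n ⊕ Unit)) k :=
    fun j => X (Sum.inr (Sum.inl j))
  let L0 : MvPolynomial (Fin (r + 2) ⊕ (Fin n ⊕ Unit)) k := X (Sum.inr (Sum.inr ()))
  let Z0 : Fin (n + 1) → MvPolynomial (Fin (r + 2) ⊕ (Fin n ⊕ Unit)) k := Fin.cons 1 Y0
  let I : Set (MvPolynomial (Fin (r + 2) ⊕ (Fin n ⊕ Unit)) k) :=
    {f | (∃ g ∈ Q, f = rename (fun j => Sum.inr (Sum.inl j)) g) ∨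
      ∃ i, f = X0 i - L0 * Z0 (s i)}
  have key : ∀ (R : Type) [CommRing R] [Algebra k R] (x : Fin (r + 2) → R) (y : Fin n → R)
      (lam : R), (∀ f ∈ I, aeval (Sum.elim x (Sum.elim y fun _ => lam)) f = 0) ↔
      (∀ g ∈ Q, aeval y g = 0) ∧
        ∀ i, x i = lam * (Fin.cons 1 y : Fin (n + 1) → R) (s i) := by
    intro R _ _ x y lam
    have h1 : ∀ g : MvPolynomial (Fin n) k, aeval (Sum.elim x (Sum.elim y fun _ => lam))
        (rename (fun j => (Sum.inr (Sum.inl j) : Fin (r + 2) ⊕ (Fin n ⊕ Unit))) g) =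
        aeval y g := by
      intro g
      rw [aeval_rename]
      rfl
    have h2 : ∀ i, aeval (Sum.elim x (Sum.elim y fun _ => lam)) (X0 i - L0 * Z0 (s i)) =
        x i - lam * (Fin.cons 1 y : Fin (n + 1) → R) (s i) := by
      intro i
      have h3 : ∀ m : Fin (n + 1), aeval (Sum.elim x (Sum.elim y fun _ => lam)) (Z0 m) =
          (Fin.cons 1 y : Fin (n + 1) → R) m := by
        intro m
        refine Fin.cases ?_ (fun j => ?_) m
        · simp [Z0]
        · simp [Z0, Y0]
      rw [map_sub, map_mul, h3]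
      simp [X0, L0]
    constructor
    · intro h
      refine ⟨fun g hg => ?_, fun i => ?_⟩
      · rw [← h1 g]
        exact h _ (Or.inl ⟨g, hg, rfl⟩)
      · have := h _ (Or.inr ⟨i, rfl⟩)
        rw [h2] at this
        exact sub_eq_zero.1 this
    · rintro ⟨h3, h4⟩ f (⟨g, hg, rfl⟩ | ⟨i, rfl⟩)
      · rw [h1]
        exact h3 g hg
      · rw [h2, h4 i, sub_self]
  rcases hELI k (Fin (r + 2)) (Fin n ⊕ Unit) I with ⟨Φ, hΦ0, hΦ⟩ | ⟨Ω, _, _, x, y, hx, h⟩
  · have h1 : ∀ (R : Type) [CommRing R] [Algebra k R] (x : Fin (r + 2) → R) (y : Fin n → R)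
        (lam : R), (∀ g ∈ Q, aeval y g = 0) →
        (∀ i, x i = lam * (Fin.cons 1 y : Fin (n + 1) → R) (s i)) → aeval x Φ = 0 := by
      intro R _ _ x y lam h1 h2
      have h3 := (key R x y lam).2 ⟨h1, h2⟩
      have h4 : Ideal.span I ≤ RingHom.ker
          (aeval (Sum.elim x (Sum.elim y fun _ => lam)) :
            MvPolynomial (Fin (r + 2) ⊕ (Fin n ⊕ Unit)) k →ₐ[k] R) := by
        rw [Ideal.span_le]
        intro f hf
        exact h3 f hf
      have h5 := h4 hΦ
      rw [RingHom.mem_ker] at h5
      rw [aeval_rename] at h5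
      exact h5
    obtain ⟨N, hN⟩ : ∃ N, homogeneousComponent N Φ ≠ 0 := by
      by_contra hcon
      push Not at hcon
      apply hΦ0
      rw [← sum_homogeneousComponent Φ]
      exact Finset.sum_eq_zero fun i _ => hcon i
    refine ⟨N, homogeneousComponent N Φ, hN, homogeneousComponent_isHomogeneous N Φ, ?_⟩
    intro F _ _ y hy
    set z : Fin (r + 2) → F := fun i => xx y (s i) with hz
    let ι : F →ₐ[k] Polynomial F := IsScalarTower.toAlgHom k F (Polynomial F)
    have hι : ∀ a : F, ι a = Polynomial.C a := fun a => rfl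
    have h2 := h1 (Polynomial F) (fun i => Polynomial.X * ι (z i)) (fun j => ι (y j))
      Polynomial.X (fun g hg => by
        have := congrArg ι (hy g hg)
        rwa [map_zero, ← AlgHom.comp_apply, comp_aeval] at this) (fun i => by
        have h3 : ∀ m : Fin (n + 1), ι (xx y m) =
            (Fin.cons 1 (fun j => ι (y j)) : Fin (n + 1) → Polynomial F) m := by
          intro m
          refine Fin.cases ?_ (fun j => ?_) m
          · simp [xx]
          · simp [xx]
        simp only [hz, h3])
    have h3 : ∀ i, aeval (fun i => ι (z i)) (homogeneousComponent i Φ) =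
        Polynomial.C (aeval z (homogeneousComponent i Φ)) := by
      intro i
      rw [← hι, ← AlgHom.comp_apply, comp_aeval]
    rw [← sum_homogeneousComponent Φ, map_sum] at h2
    have h4 : ∀ i ∈ Finset.range (Φ.totalDegree + 1),
        aeval (fun i => Polynomial.X * ι (z i)) (homogeneousComponent i Φ) =
        Polynomial.C (aeval z (homogeneousComponent i Φ)) * Polynomial.X ^ i := by
      intro i _
      rw [aeval_hom _ i (homogeneousComponent_isHomogeneous i Φ), h3]
      ring
    rw [Finset.sum_congr rfl h4] at h2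
    have h5 := congrArg (fun p : Polynomial F => p.coeff N) h2
    simp only [Polynomial.finsetSum_coeff, Polynomial.coeff_C_mul_X_pow, Polynomial.coeff_zero]
      at h5
    rw [Finset.sum_ite_eq] at h5
    by_cases hNr : N ∈ Finset.range (Φ.totalDegree + 1)
    · rw [if_pos hNr] at h5
      exact h5
    · exfalso
      apply hN
      rw [Finset.mem_range] at hNr
      exact homogeneousComponent_eq_zero _ _ (by omega)
  · exfalso
    have h2 : y = Sum.elim (fun j => y (Sum.inl j)) (fun _ => y (Sum.inr ())) := by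
      funext u
      rcases u with u | u
      · rfl
      · rfl
    rw [h2] at h
    obtain ⟨h3, h4⟩ := (key Ω x (fun j => y (Sum.inl j)) (y (Sum.inr ()))).1 h
    obtain ⟨t, ht⟩ := rank_contra k Ω n r (fun j => y (Sum.inl j)) (y (Sum.inr ())) x hx
      fun i => by
        rw [h4 i]
        refine mul_mem (Algebra.subset_adjoin (Set.mem_insert _ _)) ?_
        refine Fin.cases ?_ (fun j => ?_) (s i)
        · rw [Fin.cons_zero]
          exact one_mem _
        · rw [Fin.cons_succ]
          exact Algebra.subset_adjoin (Set.mem_insert_of_mem _ ⟨j, rfl⟩)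
    exact hQ Ω _ h3 t ht

end Pool.Agent.H51.AV
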